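import Mathlib

/-!
# MP_e2d93f_co: `K_{3k+4}` is a semi-arc `k`-visibility graph for every `k`
-/

namespace Pool.Agent.Results.MP_e2d93f_co.CompleteSemiArc

open Real Set

/-- The point of the plane with polar coordinates `(u, α)`. For `u < 0` this is the point at
distance `-u` from the origin in direction `α + π`. -/
noncomputable def pt (u α : ℝ) : ℝ × ℝ := (u * cos α, u * sin α)

/-- An arc centred at the origin: radius `r > 0` and angles from `a₁` to `a₂`. -/
structure Arc where
  r : ℝ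
  a₁ : ℝ
  a₂ : ℝ
  r_pos : 0 < r
  a₁_nonneg : 0 ≤ a₁
  a₁_lt : a₁ < 2 * π
  le : a₁ ≤ a₂
  lt : a₂ - a₁ < 2 * π

/-- The set of points of an arc. -/
def Arc.points (A : Arc) : Set (ℝ × ℝ) := {p | ∃ α, A.a₁ ≤ α ∧ α ≤ A.a₂ ∧ p = pt A.r α}

/-- The negative endpoint of an arc. -/
noncomputable def Arc.negEnd (A : Arc) : ℝ × ℝ := pt A.r A.a₁

/-- The set of points of the circle of radius `|s|` at angles `β₁` to `β₂` (signed radius `s`). -/
def circSide (s β₁ β₂ : ℝ) : Set (ℝ × ℝ) := {p | ∃ β, β₁ ≤ β ∧ β ≤ β₂ ∧ p = pt s β}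

/-- The cone with circular sides at signed radii `s < t` and radial sides in the directions
`β₁ < β₂`. If `s < 0 < t` the two radial sides intersect (in the origin). -/
def cone (s t β₁ β₂ : ℝ) : Set (ℝ × ℝ) :=
  {p | ∃ u β, s ≤ u ∧ u ≤ t ∧ β₁ ≤ β ∧ β ≤ β₂ ∧ p = pt u β}

/-- The arcs `A v` and `A w` are radially `k`-visible in the family `A`: some cone has its two
circular sides contained in `A v` and `A w` and meets at most `k` other arcs of the family. -/
def RadiallyVisible {V : Type} (A : V → Arc) (k : ℕ) (v w : V) : Prop :=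
  ∃ s t β₁ β₂ : ℝ, s < t ∧ s ≠ 0 ∧ t ≠ 0 ∧ β₁ < β₂ ∧ β₂ < β₁ + π ∧
    ((circSide s β₁ β₂ ⊆ (A v).points ∧ circSide t β₁ β₂ ⊆ (A w).points) ∨
      (circSide s β₁ β₂ ⊆ (A w).points ∧ circSide t β₁ β₂ ⊆ (A v).points)) ∧
    {x : V | x ≠ v ∧ x ≠ w ∧ ((A x).points ∩ cone s t β₁ β₂).Nonempty}.encard ≤ k

/-- `G` is a semi-arc `k`-visibility graph. -/
def IsSemiArcVisibilityGraph {V : Type} (k : ℕ) (G : SimpleGraph V) : Prop :=
  ∃ A : V → Arc, (∀ v w, v ≠ w → Disjoint (A v).points (A w).points) ∧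
    (∀ v, (A v).negEnd.2 = 0) ∧
    ∀ v w, v ≠ w → (G.Adj v w ↔ RadiallyVisible A k v w)

/-! ### Polar coordinates -/

lemma pt_sq (u α : ℝ) : (pt u α).1 ^ 2 + (pt u α).2 ^ 2 = u ^ 2 := by
  simp only [pt]
  have := Real.sin_sq_add_cos_sq α
  nlinarith [this]

lemma pt_eq_cases {r α u β : ℝ} (hr : 0 < r) (hα : 0 ≤ α) (hα' : α < 2 * π) (hβ : 0 < β)
    (hβ' : β < π) (h : pt r α = pt u β) : (u = r ∧ α = β) ∨ (u = -r ∧ α = β + π) := by
  have hsq : u ^ 2 = r ^ 2 := by rw [← pt_sq u β, ← pt_sq r α, h]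
  have h1 : r * cos α = u * cos β := congrArg Prod.fst h
  have h2 : r * sin α = u * sin β := congrArg Prod.snd h
  have hpi := Real.pi_pos
  rcases sq_eq_sq_iff_eq_or_eq_neg.mp hsq with hu | hu
  · left
    refine ⟨hu, ?_⟩
    subst hu
    have hc : cos α = cos β := mul_left_cancel₀ hr.ne' h1
    have hs : sin α = sin β := mul_left_cancel₀ hr.ne' h2
    have h3 : cos (α - β) = 1 := by
      rw [Real.cos_sub, hc, hs]
      nlinarith [Real.sin_sq_add_cos_sq β]
    have := (Real.cos_eq_one_iff_of_lt_of_lt (by linarith) (by linarith)).1 h3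
    linarith
  · right
    refine ⟨hu, ?_⟩
    subst hu
    have hc : cos α = - cos β := by
      apply mul_left_cancel₀ hr.ne'
      rw [h1]; ring
    have hs : sin α = - sin β := by
      apply mul_left_cancel₀ hr.ne'
      rw [h2]; ring
    have h3 : cos (α - (β + π)) = 1 := by
      rw [Real.cos_sub, hc, hs, Real.cos_add_pi, Real.sin_add_pi]
      nlinarith [Real.sin_sq_add_cos_sq β]
    have := (Real.cos_eq_one_iff_of_lt_of_lt (by linarith) (by linarith)).1 h3
    linarith

lemma pt_neg (u β : ℝ) : pt (-u) β = pt u (β + π) := by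
  simp [pt, Real.cos_add_pi, Real.sin_add_pi]

/-! ### The arcs -/

/-- End of the arc `i`, in units of `π / (3k+5)`. -/
def E (k i : ℕ) : ℕ :=
  if i ≤ k then 2 * k + 2 - i
  else if i ≤ 2 * k + 1 then 4 * k + 4 - i
  else if i ≤ 3 * k + 2 then (3 * k + 5) + (i - 2 * k - 1)
  else (3 * k + 5) + (3 * k + 4)

/-- The angular unit. -/
noncomputable def δ (k : ℕ) : ℝ := π / (3 * k + 5)

lemma δ_pos (k : ℕ) : 0 < δ k := by
  unfold δ
  have := Real.pi_pos
  positivity

lemma δ_mul (k : ℕ) : (3 * k + 5 : ℝ) * δ k = π := by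
  unfold δ
  field_simp

lemma E_lt (k i : ℕ) : E k i < 2 * (3 * k + 5) := by
  unfold E
  split_ifs <;> omega

/-- The `i`-th arc. -/
noncomputable def theArc (k i : ℕ) : Arc where
  r := i + 1
  a₁ := 0
  a₂ := E k i * δ k
  r_pos := by positivity
  a₁_nonneg := le_refl _
  a₁_lt := by have := Real.pi_pos; linarith
  le := by have := δ_pos k; positivity
  lt := by
    have h1 := δ_pos k
    have h2 := δ_mul k
    have h3 : (E k i : ℝ) < 2 * (3 * k + 5) := by exact_mod_cast E_lt k i
    nlinarith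

lemma theArc_angle_lt (k i : ℕ) : (E k i : ℝ) * δ k < 2 * π := by
  have := (theArc k i).lt
  simpa [theArc] using this

/-- Points of the `i`-th arc which are of the form `pt u β` with `β` in the slot `m`. -/
lemma mem_theArc {k i m : ℕ} (hm : m < 3 * k + 5) {u β : ℝ}
    (hβ : (m + 1 / 3 : ℝ) * δ k ≤ β) (hβ' : β ≤ (m + 2 / 3 : ℝ) * δ k)
    (h : pt u β ∈ (theArc k i).points) :
    (u = i + 1 ∧ m + 1 ≤ E k i) ∨ (u = -(i + 1) ∧ 3 * k + 5 + m + 1 ≤ E k i) := by
  obtain ⟨α, h1, h2, h3⟩ := h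
  have hδ := δ_pos k
  have hmul := δ_mul k
  have hpos : (0 : ℝ) < (theArc k i).r := (theArc k i).r_pos
  have hlt := theArc_angle_lt k i
  have hm' : (m : ℝ) + 1 ≤ 3 * k + 5 := by exact_mod_cast hm
  have h2' : α ≤ (E k i : ℝ) * δ k := h2
  have h1' : 0 ≤ α := h1
  rcases pt_eq_cases hpos h1' (by linarith) (by
      have : (0 : ℝ) < (m + 1 / 3 : ℝ) * δ k := by positivity
      linarith) (by nlinarith) h3.symm with ⟨hu, hαβ⟩ | ⟨hu, hαβ⟩
  · left
    refine ⟨hu, ?_⟩
    by_contra hcon
    push Not at hcon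
    have : (E k i : ℝ) ≤ m := by exact_mod_cast Nat.lt_succ_iff.mp hcon
    nlinarith
  · right
    refine ⟨hu, ?_⟩
    by_contra hcon
    push Not at hcon
    have : (E k i : ℝ) ≤ 3 * k + 5 + m := by exact_mod_cast Nat.lt_succ_iff.mp hcon
    nlinarith

lemma circSide_subset {k i m : ℕ} (h : m + 1 ≤ E k i) :
    circSide (i + 1 : ℝ) ((m + 1 / 3 : ℝ) * δ k) ((m + 2 / 3 : ℝ) * δ k) ⊆ (theArc k i).points := by
  rintro p ⟨β, hβ, hβ', rfl⟩
  have hδ := δ_pos k
  refine ⟨β, ?_, ?_, rfl⟩
  · change 0 ≤ β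
    have : (0 : ℝ) < (m + 1 / 3 : ℝ) * δ k := by positivity
    linarith
  · change β ≤ (E k i : ℝ) * δ k
    have : (m : ℝ) + 1 ≤ E k i := by exact_mod_cast h
    nlinarith

lemma circSide_neg_subset {k i m : ℕ} (h : 3 * k + 5 + m + 1 ≤ E k i) :
    circSide (-(i + 1) : ℝ) ((m + 1 / 3 : ℝ) * δ k) ((m + 2 / 3 : ℝ) * δ k) ⊆
      (theArc k i).points := by
  rintro p ⟨β, hβ, hβ', rfl⟩
  have hδ := δ_pos k
  have hmul := δ_mul k
  refine ⟨β + π, ?_, ?_, pt_neg _ _⟩
  · change 0 ≤ β + π
    have : (0 : ℝ) < (m + 1 / 3 : ℝ) * δ k := by positivity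
    have := Real.pi_pos
    linarith
  · change β + π ≤ (E k i : ℝ) * δ k
    have : 3 * (k : ℝ) + 5 + m + 1 ≤ E k i := by exact_mod_cast h
    nlinarith

lemma encard_window (n lo k : ℕ) : {x : Fin n | lo ≤ x.val ∧ x.val < lo + k}.encard ≤ k := by
  have h : (Fin.val '' {x : Fin n | lo ≤ x.val ∧ x.val < lo + k}) ⊆
      (↑(Finset.Ico lo (lo + k)) : Set ℕ) := by
    rintro _ ⟨x, hx, rfl⟩
    simpa using hx
  rw [← Set.InjOn.encard_image (f := Fin.val) (Fin.val_injective.injOn)]
  refine (Set.encard_le_encard h).trans ?_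
  rw [Set.encard_coe_eq_coe_finsetCard]
  simp

/-- The family of arcs. -/
noncomputable def fam (k : ℕ) : Fin (3 * k + 4) → Arc := fun i => theArc k i

lemma RadiallyVisible.symm {V : Type} {A : V → Arc} {k : ℕ} {v w : V}
    (h : RadiallyVisible A k v w) : RadiallyVisible A k w v := by
  obtain ⟨s, t, β₁, β₂, h1, h2, h3, h4, h5, h6, h7⟩ := h
  refine ⟨s, t, β₁, β₂, h1, h2, h3, h4, h5, h6.symm, ?_⟩
  convert h7 using 3
  ext x
  tauto

/-- Direct visibility in the slot `m`. -/
lemma visible_direct {k : ℕ} {p q : Fin (3 * k + 4)} (m lo : ℕ) (hm : m < 3 * k + 5)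
    (hpq : p.val < q.val) (hp : m + 1 ≤ E k p) (hq : m + 1 ≤ E k q)
    (hblock : ∀ x : ℕ, p.val < x → x < q.val → m + 1 ≤ E k x → lo ≤ x ∧ x < lo + k) :
    RadiallyVisible (fam k) k p q := by
  have hδ := δ_pos k
  have hmul := δ_mul k
  have hpi := Real.pi_pos
  have hpq' : (p.val : ℝ) < q.val := by exact_mod_cast hpq
  refine ⟨p.val + 1, q.val + 1, (m + 1 / 3 : ℝ) * δ k, (m + 2 / 3 : ℝ) * δ k, by linarith,
    by positivity, by positivity, by nlinarith, by nlinarith,
    Or.inl ⟨circSide_subset hp, circSide_subset hq⟩, ?_⟩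
  refine (Set.encard_le_encard ?_).trans (encard_window (3 * k + 4) lo k)
  rintro x ⟨hxp, hxq, y, hy, u, β, hu1, hu2, hβ1, hβ2, rfl⟩
  have hxp' : x.val ≠ p.val := fun h => hxp (Fin.ext h)
  have hxq' : x.val ≠ q.val := fun h => hxq (Fin.ext h)
  rcases mem_theArc hm hβ1 hβ2 hy with ⟨hu, hE⟩ | ⟨hu, hE⟩
  · rw [hu] at hu1 hu2
    have h1 : p.val ≤ x.val := by
      have : (p.val : ℝ) ≤ x.val := by linarith
      exact_mod_cast this
    have h2 : x.val ≤ q.val := by
      have : (x.val : ℝ) ≤ q.val := by linarith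
      exact_mod_cast this
    exact hblock x.val (by omega) (by omega) hE
  · exfalso
    rw [hu] at hu1
    have : (0 : ℝ) ≤ x.val := by positivity
    have : (0 : ℝ) ≤ p.val := by positivity
    linarith

/-- Visibility through the origin in the slot `m`. -/
lemma visible_origin {k : ℕ} {p q : Fin (3 * k + 4)} (m lo : ℕ) (hm : m < 3 * k + 5)
    (hp : m + 1 ≤ E k p) (hq : 3 * k + 5 + m + 1 ≤ E k q)
    (hblock : ∀ x : ℕ, x < p.val → m + 1 ≤ E k x → lo ≤ x ∧ x < lo + k)
    (hblock' : ∀ x : ℕ, x < q.val → E k x < 3 * k + 5 + m + 1) :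
    RadiallyVisible (fam k) k p q := by
  have hδ := δ_pos k
  have hmul := δ_mul k
  have hpi := Real.pi_pos
  have hp0 : (0 : ℝ) ≤ p.val := by positivity
  have hq0 : (0 : ℝ) ≤ q.val := by positivity
  refine ⟨-(q.val + 1), p.val + 1, (m + 1 / 3 : ℝ) * δ k, (m + 2 / 3 : ℝ) * δ k, by linarith,
    by linarith, by positivity, by nlinarith, by nlinarith,
    Or.inr ⟨circSide_neg_subset hq, circSide_subset hp⟩, ?_⟩
  refine (Set.encard_le_encard ?_).trans (encard_window (3 * k + 4) lo k)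
  rintro x ⟨hxp, hxq, y, hy, u, β, hu1, hu2, hβ1, hβ2, rfl⟩
  have hxp' : x.val ≠ p.val := fun h => hxp (Fin.ext h)
  have hxq' : x.val ≠ q.val := fun h => hxq (Fin.ext h)
  rcases mem_theArc hm hβ1 hβ2 hy with ⟨hu, hE⟩ | ⟨hu, hE⟩
  · rw [hu] at hu1 hu2
    have h2 : x.val ≤ p.val := by
      have : (x.val : ℝ) ≤ p.val := by linarith
      exact_mod_cast this
    exact hblock x.val (by omega) hE
  · exfalso
    rw [hu] at hu1
    have h2 : x.val ≤ q.val := by
      have : (x.val : ℝ) ≤ q.val := by linarith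
      exact_mod_cast this
    have := hblock' x.val (by omega)
    omega

lemma visible_of_lt {k : ℕ} {p q : Fin (3 * k + 4)} (hpq : p.val < q.val) :
    RadiallyVisible (fam k) k p q := by
  have hpl := p.isLt
  have hql := q.isLt
  by_cases hp : p.val ≤ k
  · by_cases hq : q.val ≤ k
    · -- a a
      refine visible_direct 0 (p.val + 1) (by omega) hpq ?_ ?_ ?_
      · unfold E; split_ifs <;> omega
      · unfold E; split_ifs <;> omega
      · intro x h1 h2 _; omega
    · by_cases hq2 : q.val ≤ 2 * k + 1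
      · -- a d
        refine visible_direct (2 * k + 1 - p.val) (k + 1) (by omega) hpq ?_ ?_ ?_
        · unfold E; split_ifs <;> omega
        · unfold E; split_ifs <;> omega
        · intro x h1 h2 h3
          unfold E at h3
          split_ifs at h3 <;> omega
      · -- a c
        refine visible_origin (q.val - (2 * k + 2)) 0 (by omega) ?_ ?_ ?_ ?_
        · unfold E; split_ifs; omega
        · unfold E; split_ifs <;> omega
        · intro x h1 _; omega
        · intro x h1
          unfold E; split_ifs <;> omega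
  · by_cases hp2 : p.val ≤ 2 * k + 1
    · by_cases hq : q.val ≤ 2 * k + 1
      · -- d d
        refine visible_direct 0 (p.val + 1) (by omega) hpq ?_ ?_ ?_
        · unfold E; split_ifs; omega
        · unfold E; split_ifs <;> omega
        · intro x h1 h2 _; omega
      · by_cases hq2 : q.val ≤ 3 * k + 2
        · -- d c
          refine visible_direct (4 * k + 3 - p.val) (2 * k + 2) (by omega) hpq ?_ ?_ ?_
          · unfold E; split_ifs; omega
          · unfold E; split_ifs <;> omega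
          · intro x h1 h2 h3
            unfold E at h3
            split_ifs at h3 <;> omega
        · -- d c_{k+1}
          refine visible_origin (2 * k + 2) (k + 1) (by omega) ?_ ?_ ?_ ?_
          · unfold E; split_ifs; omega
          · unfold E; split_ifs <;> omega
          · intro x h1 h2
            unfold E at h2
            split_ifs at h2 <;> omega
          · intro x h1
            unfold E; split_ifs <;> omega
    · -- c c
      refine visible_direct 0 (p.val + 1) (by omega) hpq ?_ ?_ ?_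
      · unfold E; split_ifs <;> omega
      · unfold E; split_ifs <;> omega
      · intro x h1 h2 _; omega

/-- For every `k`, the complete graph `K_{3k+4}` is a semi-arc `k`-visibility graph. -/
theorem result : ∀ k : ℕ, IsSemiArcVisibilityGraph k (⊤ : SimpleGraph (Fin (3 * k + 4))) := by
  intro k
  refine ⟨fam k, ?_, ?_, ?_⟩
  · intro v w hvw
    rw [Set.disjoint_left]
    rintro _ ⟨α, _, _, rfl⟩ ⟨β, _, _, h⟩
    have h1 : ((fam k v).r) ^ 2 = ((fam k w).r) ^ 2 := by
      have e1 := pt_sq (fam k v).r α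
      have e2 := pt_sq (fam k w).r β
      rw [h] at e1
      rw [← e1, ← e2]
    have h2 : (fam k v).r = (fam k w).r := by
      have hv := (fam k v).r_pos
      have hw := (fam k w).r_pos
      nlinarith
    have h3 : (v.val : ℝ) + 1 = w.val + 1 := h2
    have h4 : (v.val : ℝ) = w.val := by linarith
    exact hvw (Fin.ext (by exact_mod_cast h4))
  · intro v
    simp [Arc.negEnd, fam, theArc, pt]
  · intro v w hvw
    simp only [SimpleGraph.top_adj, ne_eq, hvw, not_false_eq_true, true_iff]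
    rcases lt_or_gt_of_ne (fun h => hvw (Fin.ext h) : v.val ≠ w.val) with h | h
    · exact visible_of_lt h
    · exact (visible_of_lt h).symm

end Pool.Agent.Results.MP_e2d93f_co.CompleteSemiArc
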